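import Pool.Agent.P.MP_f1a348_lc.UP.EBase

/-!
Project RN: relations over a group of isometries and equivariant maps.  Definitions and basic facts.
-/

namespace Pool.Agent.P.MP_f1a348_lc.UP.CU.RN

open Matrix Module Pool.Agent.P.MP_f1a348_lc.PG

noncomputable section
variable {p n : ℕ}

/-- a subgroup of the affine group of level `t` that maps onto `L` -/
structure KL (ℓ : Ix n → ℕ) (L : Set (Mat p n)) (t : ℕ) (K : Rel p n) : Prop where
  mem : ∀ z w, K z w → z ∈ L ∧ w ∈ Wt ℓ t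
  one : K 1 0
  mul : ∀ z w y v, K z w → K y v → K (z * y) (pull1 y w + v)
  star : ∀ z w, K z w → K (st z) (-pull1 (st z) w)
  onto : ∀ z ∈ L, ∃ w, K z w

/-- the span of the values -/
def PK (K : Rel p n) : Submodule (ZMod p) (Frm p n) := Submodule.span (ZMod p) {w | ∃ z, K z w}

/-- maps to the level `t` that are equivariant modulo traces -/
structure Eqv (ℓ : Ix n → ℕ) (B : Sub p n) (L : Set (Mat p n)) (K : Rel p n) (t : ℕ)
    (ψ : Frm p n →ₗ[ZMod p] Frm p n) : Prop where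
  wt : ∀ w, ψ w ∈ Wt ℓ t
  sp : ∀ w ∈ SpK K, ψ w ∈ Tr ℓ B
  eqv : ∀ z ∈ L, ∀ w ∈ PK K, ψ (pull1 z w) - pull1 z (ψ w) ∈ Tr ℓ B

/-- the image of the relation is the coboundary of `θ` -/
structure Sys (ℓ : Ix n → ℕ) (B : Sub p n) (L : Set (Mat p n)) (K : Rel p n) (t : ℕ)
    (ψ : Frm p n →ₗ[ZMod p] Frm p n) (θ : Frm p n) : Prop where
  eqv : Eqv ℓ B L K t ψ
  wt : θ ∈ Wt ℓ t
  cob : ∀ z w, K z w → pull1 z θ - θ - ψ w ∈ Tr ℓ B

/-- the boxes of vectors -/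
def bx (b : Ix n) : Fin 3 → Ix n := ![b, c0 n, c0 n]

/-- a non-zero equivariant map to a box of vectors -/
structure FO (ℓ : Ix n → ℕ) (B : Sub p n) (L : Set (Mat p n)) (K : Rel p n) (b : Ix n)
    (ψ : Frm p n →ₗ[ZMod p] Frm p n) : Prop where
  nt : b = c0 n ∨ ¬ Triv ℓ B b
  wt : ∀ w, ψ w ∈ Wt ℓ (key ℓ (bx b))
  sp : ∀ u, K 1 u → ψ u = 0
  eqv : ∀ z ∈ L, ∀ u ∈ PK K, ψ (pull1 z u) = pull1 z (ψ u)
  ne : ∃ z u, K z u ∧ ψ u ≠ 0

/-- the alternative for relations over `L` -/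
def Eng (ℓ : Ix n → ℕ) (B : Sub p n) (L : Set (Mat p n)) : Prop :=
  ∀ (a : Fin 3 → Ix n) (K : Rel p n), KL ℓ L (key ℓ a) K →
    (∀ z w, K z w → K 1 w) ∨ (∃ b ψ, FO ℓ B L K b ψ) ∨
    ∃ (a' : Fin 3 → Ix n) (ψ : Frm p n →ₗ[ZMod p] Frm p n) (θ : Frm p n),
      (∀ j, a' j = c0 n ∨ ¬ Triv ℓ B (a' j)) ∧ (∃ j, ¬ Triv ℓ B (a' j)) ∧
      Sys ℓ B L K (key ℓ a') ψ θ ∧ θ ∉ Tr ℓ B

/-- the answer of the engine -/
structure ER (ℓ : Ix n → ℕ) (B : Sub p n) (K : Rel p n) (δ : Frm p n) (A : Sub p n)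
    (Y Y' : List (Mat p n)) : Prop where
  alg : Alg ℓ A
  le : A ≤ B
  mem : ∀ y ∈ Y, U1 B y
  mem' : ∀ y ∈ Y', U1 B y
  cov : ∀ z, K z 0 → ∃ y ∈ Y, st y * z ∈ A
  cov' : ∀ z w, K z w → pull1 z δ + w = 0 → ∃ y ∈ Y', st y * z ∈ A

/-- the trivial relation -/
def K0 (B : Sub p n) : Rel p n := fun z w => U1 B z ∧ w = 0

end

set_option linter.unusedSectionVars false

variable {p n : ℕ} [Fact p.Prime] {ℓ : Ix n → ℕ} {B : Sub p n} {L : Set (Mat p n)} {t t' : ℕ}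
  {K : Rel p n} {ψ : Frm p n →ₗ[ZMod p] Frm p n} {θ : Frm p n}

theorem u1_z0' (h : Str ℓ B) : U1 B (z0 ℓ B) := by
  refine ⟨sub_mem h.alg.one (B.smul_mem _ (eo_mem h)), ?_, ?_⟩
  · rw [Un, z0, st_sub, st_one, st_smul, st_eo h]
    simp only [mul_sub, sub_mul, mul_one, one_mul, mul_smul_comm, smul_mul_assoc, eo_mul_eo]
    module
  · rw [z0, Matrix.sub_apply, Matrix.smul_apply, eo_c0 h.alg, Matrix.one_apply_eq, smul_zero,
      sub_zero]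

theorem kc_K0 (hl : Lab ℓ) (h : Alg ℓ B) (t : ℕ) : KC ℓ B t (K0 B) where
  mem z w hw := ⟨hw.1, hw.2 ▸ zero_mem _⟩
  one := ⟨u1_one h, rfl⟩
  mul z w y v a b := ⟨a.1.mul hl h b.1, by rw [a.2, b.2, map_zero, add_zero]⟩
  star z w a := ⟨a.1.star hl h, by rw [a.2, map_zero, neg_zero]⟩
  onto z hz := ⟨0, hz, rfl⟩

theorem spK_K0 (B : Sub p n) : SpK (K0 B) = ⊥ :=
  Submodule.span_eq_bot.2 fun _ h => h.2

theorem k0_z0 (h : Str ℓ B) : K0 B (z0 ℓ B) 0 := ⟨u1_z0' h, rfl⟩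

theorem KL.mem_sp (h : KL ℓ L t K) {w : Frm p n} : w ∈ SpK K ↔ K 1 w := by
  have ha : ∀ u v, K 1 u → K 1 v → K 1 (u + v) := fun u v a b => by
    simpa [pull1_one] using h.mul _ _ _ _ a b
  refine ⟨fun hw => ?_, fun hw => Submodule.subset_span hw⟩
  induction hw using Submodule.span_induction with
  | mem x hx => exact hx
  | zero => exact h.one
  | add x y _ _ a b => exact ha _ _ a b
  | smul c x _ a =>
    rw [← ZMod.natCast_zmod_val c, Nat.cast_smul_eq_nsmul]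
    induction c.val with
    | zero => simpa using h.one
    | succ k ih => rw [succ_nsmul]; exact ha _ _ ih a

theorem mem_PK {z : Mat p n} {w : Frm p n} (h : K z w) : w ∈ PK K :=
  Submodule.subset_span ⟨z, h⟩

theorem spK_le_PK (K : Rel p n) : SpK K ≤ PK K := Submodule.span_mono fun _ h => ⟨1, h⟩

theorem KL.pk_le (h : KL ℓ L t K) : PK K ≤ Wt ℓ t :=
  Submodule.span_le.2 fun _ ⟨_, hw⟩ => (h.mem _ _ hw).2

theorem KL.adjust (h : KL ℓ L t K) {z : Mat p n} {w v : Frm p n} (hw : K z w) (hv : v ∈ SpK K) :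
    K z (w + v) := by
  simpa [pull1_one] using h.mul _ _ _ _ hw (h.mem_sp.1 hv)

theorem KL.sub_mem (h : KL ℓ L t K) {z : Mat p n} (hu : Un z) {w v : Frm p n} (hw : K z w)
    (hv : K z v) : v - w ∈ SpK K := by
  have := h.mul _ _ _ _ (h.star _ _ hw) hv
  rw [hu.st_mul, map_neg, pull1_pull1_st hu, neg_add_eq_sub] at this
  exact h.mem_sp.2 this

theorem KL.pull_sp (h : KL ℓ L t K) {z : Mat p n} (hz : z ∈ L) (hu : Un z) {v : Frm p n}
    (hv : v ∈ SpK K) : pull1 z v ∈ SpK K := by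
  obtain ⟨w, hw⟩ := h.onto z hz
  have := h.sub_mem hu hw (by simpa using h.mul _ _ _ _ (h.mem_sp.1 hv) hw)
  simpa using this

theorem KL.pull_pk (h : KL ℓ L t K) {z : Mat p n} (hz : z ∈ L) {w : Frm p n} (hw : w ∈ PK K) :
    pull1 z w ∈ PK K := by
  obtain ⟨v, hv⟩ := h.onto z hz
  refine Submodule.span_le.2 (?_ : _ ⊆ ((PK K).comap (pull1 z) : Set (Frm p n))) hw
  rintro u ⟨y, hy⟩
  have := Submodule.sub_mem _ (mem_PK (h.mul _ _ _ _ hy hv)) (mem_PK hv)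
  rwa [add_sub_cancel_right] at this

/-- no trace lives in a box of vectors -/
theorem tr_bx (h : Str ℓ B) {b : Ix n} {w : Frm p n} (h1 : w ∈ Tr ℓ B)
    (h2 : w ∈ Wt ℓ (key ℓ (bx b))) : w = 0 := by
  refine Wt_ext h.lab h2 (zero_mem _) fun x hx => ?_
  rw [ev_zero]
  have t1 := triv_mem_perp h (hx 1) (triv_c0 h.alg)
  have t2 := triv_mem_perp h (hx 2) (triv_c0 h.alg)
  refine ev_Tr (fun m => ?_) h1
  fin_cases m
  exacts [t2 _, perp_orb_co_symm h (t2 _), t1 _]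

theorem Eqv.fo (h : Str ℓ B) (hL : ∀ z ∈ L, U1 B z) {b : Ix n} (hb : b = c0 n ∨ ¬ Triv ℓ B b)
    (e : Eqv ℓ B L K (key ℓ (bx b)) ψ) (hn : ∃ w ∈ PK K, ψ w ≠ 0) : FO ℓ B L K b ψ where
  nt := hb
  wt := e.wt
  sp u hu := tr_bx h (e.sp u (Submodule.subset_span hu)) (e.wt u)
  eqv z hz u hu := sub_eq_zero.1 (tr_bx h (e.eqv z hz u hu)
    (Submodule.sub_mem _ (e.wt _) (pull1_mem_Wt h.lab (h.alg.dg z (hL z hz).1) (e.wt u))))
  ne := by
    by_contra! hc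
    obtain ⟨w, hw, h0⟩ := hn
    have : PK K ≤ LinearMap.ker ψ := Submodule.span_le.2 (by rintro u ⟨z, hz⟩; exact hc z u hz)
    exact h0 (this hw)

theorem FO.to_eqv {b : Ix n} (e : FO ℓ B L K b ψ) : Eqv ℓ B L K (key ℓ (bx b)) ψ where
  wt := e.wt
  sp w hw := by
    have h : SpK K ≤ LinearMap.ker ψ := Submodule.span_le.2 fun u hu => e.sp u hu
    rw [show ψ w = 0 from h hw]; exact zero_mem _
  eqv z hz w hw := by rw [e.eqv z hz w hw, sub_self]; exact zero_mem _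

theorem FO.pk {b : Ix n} (e : FO ℓ B L K b ψ) : ∃ w ∈ PK K, ψ w ≠ 0 :=
  let ⟨_, u, h1, h2⟩ := e.ne
  ⟨u, mem_PK h1, h2⟩

/-- a solution transports the shifted form -/
theorem Sys.sol (hK : KL ℓ L t K) (hL : ∀ z ∈ L, U1 B z) (e : Sys ℓ B L K t' ψ θ)
    {z : Mat p n} {w δ : Frm p n} (hz : K z w) (h0 : pull1 z δ + w = 0) :
    pull1 z (θ + ψ δ) - θ ∈ Tr ℓ B := by
  have h1 := (hK.mem z w hz).1
  have hu := (hL z h1).2.1
  have h2 : δ ∈ PK K := by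
    have := mem_PK (hK.star z w hz)
    rwa [eq_neg_of_add_eq_zero_right h0, map_neg, neg_neg, pull1_st_pull1 hu] at this
  have h3 := Submodule.sub_mem _ (e.cob z w hz) (e.eqv.eqv z h1 δ h2)
  rw [eq_neg_of_add_eq_zero_left h0, map_neg] at h3
  convert h3 using 1
  rw [map_add]
  abel

/-! ### generators -/

variable {P : Set (Mat p n × Frm p n)}

theorem genK_of_mem {q : Mat p n × Frm p n} (h : q ∈ P) : GenK P q.1 q.2 := by
  simpa using GenK.mul GenK.one (y := q.1) (v := q.2) h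

/-- the span of the values is the closure of the values of the generators -/
theorem pk_le_of (hP : ∀ z w, K z w ↔ GenK P z w) {S : Submodule (ZMod p) (Frm p n)}
    (h1 : ∀ q ∈ P, q.2 ∈ S) (h2 : ∀ q ∈ P, ∀ w ∈ S, pull1 q.1 w ∈ S) : PK K ≤ S := by
  refine Submodule.span_le.2 ?_
  rintro w ⟨z, hz⟩
  rw [hP] at hz
  induction hz with
  | one => exact zero_mem _
  | mul _ hq ih => exact add_mem (h2 _ hq _ ih) (h1 _ hq)

theorem gen_mem_pk (hP : ∀ z w, K z w ↔ GenK P z w) {q : Mat p n × Frm p n} (h : q ∈ P) :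
    q.2 ∈ PK K := mem_PK ((hP _ _).2 (genK_of_mem h))

theorem KL.gen_mem (hK : KL ℓ L t K) (hP : ∀ z w, K z w ↔ GenK P z w) {q : Mat p n × Frm p n}
    (h : q ∈ P) : q.1 ∈ L := (hK.mem _ _ ((hP _ _).2 (genK_of_mem h))).1

theorem eqv_of_gen (hK : KL ℓ L t K) (hL : ∀ z ∈ L, U1 B z) (hP : ∀ z w, K z w ↔ GenK P z w)
    (h1 : ∀ w, ψ w ∈ Wt ℓ t') (h2 : ∀ w ∈ SpK K, ψ w ∈ Tr ℓ B)
    (h3 : ∀ q ∈ P, ∀ w ∈ PK K, ψ (pull1 q.1 w) - pull1 q.1 (ψ w) ∈ Tr ℓ B) :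
    Eqv ℓ B L K t' ψ := by
  refine ⟨h1, h2, fun z hz => ?_⟩
  obtain ⟨v, hv⟩ := hK.onto z hz
  rw [hP] at hv
  clear hz
  induction hv with
  | one => intro w _; simp
  | @mul z u y v hz hq ih =>
    intro w hw
    have hy := hL y (hK.gen_mem hP hq)
    have h4 := h3 _ hq _ (hK.pull_pk (hK.mem _ _ ((hP _ _).2 hz)).1 hw)
    have := add_mem h4 (pull1_mem_Tr hy.1 hy.2.1 (ih w hw))
    rw [pull1_mul, pull1_mul]
    convert this using 1
    rw [map_sub]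
    abel

theorem sys_of_gen (hK : KL ℓ L t K) (hL : ∀ z ∈ L, U1 B z) (hP : ∀ z w, K z w ↔ GenK P z w)
    (e : Eqv ℓ B L K t' ψ) (h1 : θ ∈ Wt ℓ t')
    (h2 : ∀ q ∈ P, pull1 q.1 θ - θ - ψ q.2 ∈ Tr ℓ B) : Sys ℓ B L K t' ψ θ := by
  refine ⟨e, h1, fun z w hz => ?_⟩
  rw [hP] at hz
  induction hz with
  | one => simp
  | @mul z u y v hz hq ih =>
    have hy := hK.gen_mem hP hq
    have := Submodule.sub_mem _ (add_mem (pull1_mem_Tr (hL y hy).1 (hL y hy).2.1 ih) (h2 _ hq))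
      (e.eqv y hy u (mem_PK ((hP _ _).2 hz)))
    rw [pull1_mul]
    convert this using 1
    simp only [map_sub, map_add]
    abel

end Pool.Agent.P.MP_f1a348_lc.UP.CU.RN
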