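import Pool.Agent.P.MP_f1a348_lc.RN.KDefs

/-! Project RN: naturality of the recipes that depend on a form. -/

namespace Pool.Agent.P.MP_f1a348_lc.UP.CU.RN

open Matrix Module Pool.Agent.P.MP_f1a348_lc.PG

theorem map_cj_self {p n : ℕ} {ℓ : Ix n → ℕ} {B : Sub p n} (hB : Alg ℓ B) {z : Mat p n}
    (hz : z ∈ B) (hu : Un z) : B.map (cj z) = B := by
  ext X
  rw [hu.mem_map_cj]
  refine ⟨fun h => ?_, fun h => ?_⟩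
  · rw [← hu.cj_cj' X]
    exact hB.mul _ (hB.mul _ hz _ h) _ (hB.star _ hz)
  · exact hB.mul _ (hB.mul _ (hB.star _ hz) _ h) _ (hB.star _ (hB.star _ hz))

def S_NATR (p n : ℕ) [Fact p.Prime] : Prop := ∀ (ℓ : Ix n → ℕ) (s : Side p n) (t : ℕ)
  (K K' : Rel p n) (ρ : Rq p n) (θ θ' : Frm p n) (y : Mat p n), Good ℓ s → Shp ℓ s t ρ →
  4 ≤ ρ.kind → θ ∈ Wt ℓ t → θ' ∈ Wt ℓ t → U1 s.B y → pull1 y θ' - θ ∈ Tr ℓ s.B →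
  ∃ q ∈ Qs ℓ s ρ.a, ∃ q' ∈ Qs ℓ s ρ.a, (ρ.kind ≠ 4 → q = 0 ∧ q' = 0) ∧
    y ∈ Xq ℓ s K K' ρ θ θ' q q'

theorem s_NATR (p n : ℕ) [Fact p.Prime] (hHINV : S_HINV p n) (hNAT3 : S_NAT3 p n)
    (hNA5 : S_NA5 p n) (hHI5 : S_HI5 p n) : S_NATR p n := by
  intro ℓ s t K K' ρ θ θ' y hs hρ h4 T1 T2 hU T3
  have hl := hs.str.lab
  have hf := hU.lev hl hs.str.alg
  suffices H : ∀ u ∈ Vb ℓ (ρ.a 0), ∃ q ∈ Qs ℓ s ρ.a, (ρ.kind ≠ 4 → q = 0) ∧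
      Ed ℓ s K' ρ θ' q = (Ed ℓ s K ρ θ (u, 0)).map (act y) by
    obtain ⟨q, h1, h2, h3⟩ := H _ hρ.u
    obtain ⟨q', h4, h5, h6⟩ := H _ hρ.v
    refine ⟨q, h1, q', h4, fun k => ⟨h2 k, h5 k⟩, ?_⟩
    rw [Xq, h3, h6]
    exact mem_Ht_of_map (mem_Ht_of_map hU.1 hU.2.1) hU.2.1
  intro u hu
  have k2 : ρ.kind ≠ 2 := by omega
  have k3 : ρ.kind ≠ 3 := by omega
  obtain rfl := hρ.t
  have hW : θ' - pull1 (st y) θ ∈ Wt ℓ (ρ.t ℓ) := sub_mem T2 (pull1_mem_Wt hl hf.star.dg T1)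
  have hTr : θ' - pull1 (st y) θ ∈ Tr ℓ s.B := by
    have := pull1_mem_Tr (hs.str.alg.star _ hU.1) hf.star.un T3
    rwa [map_sub, pull1_st_pull1 hU.2.1] at this
  have hτ := perm_mem_Tr hs.str (pm_bij ρ.k) hTr
  have hτW := perm_mem_Wt hl (pm_bij ρ.k) (a := ρ.a) hW
  have e' : pull1 (st y) (perm (pm ρ.k) θ) + perm (pm ρ.k) (θ' - pull1 (st y) θ) =
      perm (pm ρ.k) θ' := by
    rw [map_sub, pull1_perm (pm_bij ρ.k)]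
    abel
  by_cases k4 : ρ.kind = 4
  · obtain ⟨q, h1, -, h2⟩ := (hHINV ℓ s ρ.a (pull1 (st y) (perm (pm ρ.k) θ)) _ hs hτ hτW).1
      (y *ᵥ u, 0) ⟨hf.dg.mulVec_mem hu, fun _ _ => rfl⟩
    have := (hNAT3 ℓ y ⟨0, s.B, s.Cs⟩ ⟨0, s.B, s.Cs⟩ ρ.a (perm (pm ρ.k) θ) ⟨hs.str, hs.sp, hs.len⟩
      ⟨hf.par, map_zero _, by rw [hf.dg.gr_eq, map_cj_self hs.str.alg hU.1 hU.2.1],
        fun a b => by
          rw [hf.dg.gr_eq]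
          exact ((List.map_congr_left (g := id) fun C hC =>
            hU.2.1.cj_of_comm ((hs.mem_cb hC).1 _ hU.1)).trans (List.map_id _)).symm⟩).1 (u, 0)
    rw [hf.dg.gr_eq] at this
    refine ⟨q, h1, fun k => absurd k4 k, ?_⟩
    simp only [Ed, if_neg k2, if_neg k3, if_pos k4]
    rw [← e', h2]
    exact this
  obtain ⟨i5, i6, i7⟩ := hHI5 ℓ s ρ.a (pull1 (st y) (perm (pm ρ.k) θ)) _ ρ.r hs hτ hτW
  obtain ⟨j5, j6, j7⟩ := hNA5 ℓ s ρ.a (perm (pm ρ.k) θ) y ρ.r hs hU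
  refine ⟨0, zero_mem _, fun _ => rfl, ?_⟩
  simp only [Ed, if_neg k2, if_neg k3, if_neg k4]
  rw [← e', i5, i6, i7, j5, j6, j7]
  split_ifs <;> rfl

end Pool.Agent.P.MP_f1a348_lc.UP.CU.RN
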