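import Pool.Agent.P.MP_f1a348_lc.RN.QSys
import Pool.Agent.P.MP_f1a348_lc.RN.Nat
import Pool.Agent.P.MP_f1a348_lc.UP.TQENG

/-!
Project RN: the specification of the engine.
-/

namespace Pool.Agent.P.MP_f1a348_lc.UP.CU.RN

open Matrix Module Pool.Agent.P.MP_f1a348_lc.PG

/-- `fq A X` finds a unitary element of a coset `X` of the algebra `A` -/
def Fq (p n : ℕ) [Fact p.Prime] (l : V) (fq : List V → List V → Option V) : Prop :=
  ∀ A X, Alg (lab n l) (sp (mat p n) A) → Cos (sp (mat p n) A) (sp (mat p n) X) →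
    (∀ x ∈ sp (mat p n) X, Dg (lab n l) x) →
    (∀ y, fq A X = some y → U1 (sp (mat p n) X) (mV p n y)) ∧
    ((∃ z, U1 (sp (mat p n) X) z) → (fq A X).isSome = true)

def S_QRN (p n : ℕ) [Fact p.Prime] : Prop := ∀ (fq : List V → List V → Option V) (c : Cx) (l : V)
  (B : List V) (a : Fin 3 → Ix n) (μ : V) (PL : List (V × V)) (SL : List V) (δ : V)
  (L : Set (Mat p n)) (K : Rel p n), UP.Ok p n c → 0 < n → Fq p n l fq →
  Str (lab n l) (sp (mat p n) B) → (∀ z ∈ L, U1 (sp (mat p n) B) z) →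
  KL (lab n l) L (key (lab n l) a) K → (∀ z w, K z w ↔ GenK (plD p n PL) z w) →
  sp (frm p n) SL = SpK K →
  (Big (lab n l) (sp (mat p n) B) 200 → Scl (muD μ) (lab n l) (sp (mat p n) B) →
    Eng (lab n l) (sp (mat p n) B) L → freP c l B PL SL = none →
    engP fq c l B μ PL SL δ = none → ∀ z w, K z w → K 1 w) ∧
  (∀ e, freP c l B PL SL = some e →
    ∃ b : Ix n, e.1 = b.val ∧ FO (lab n l) (sp (mat p n) B) L K b (psiD p n e)) ∧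
  ∀ A Y Y', engP fq c l B μ PL SL δ = some (A, Y, Y') →
    ER (lab n l) (sp (mat p n) B) K (fV p n δ) (sp (mat p n) A) (Y.map (mV p n))
      (Y'.map (mV p n)) ∧
    p * Y.length * p ^ (200 * PhA (muD μ) (lab n l) (sp (mat p n) A)) ≤
      p ^ (200 * PhiS (muD μ) (lab n l) (sp (mat p n) B)) ∧
    p * Y'.length * p ^ (200 * PhA (muD μ) (lab n l) (sp (mat p n) A)) ≤
      p ^ (200 * PhiS (muD μ) (lab n l) (sp (mat p n) B))

variable {p n : ℕ} [Fact p.Prime] {c : Cx} {l : V} {s : Sd} {t t' : ℕ} {PL : List (V × V)}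
  {SL : List V} {L : Set (Mat p n)} {K K' : Rel p n}

theorem pk_PK (h : Ok p n c) (hP : ∀ z w, K z w ↔ GenK (plD p n PL) z w) :
    sp (frm p n) (pkP c PL) = PK K := by
  rw [pk_eq h, PK]
  simp only [hP]

theorem eqv_iff (h : Ok p n c) (hs : Gd p n l s) (hL : ∀ z ∈ L, U1 (sdD p n s).B z)
    (hK : KL (lab n l) L t K) (hP : ∀ z w, K z w ↔ GenK (plD p n PL) z w)
    (hS : sp (frm p n) SL = SpK K) (x : Frm p n × (Frm p n →ₗ[ZMod p] Frm p n)) :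
    x ∈ sp (dY p n) (eqvP c l s t' PL SL) ↔
      Eqv (lab n l) (sdD p n s).B L K t' (cmp (lab n l) t' ∘ₗ x.2) := by
  rw [mem_eqvP h hs, pk_PK h hP, hS]
  refine ⟨fun H => eqv_of_gen hK hL hP (fun _ => cmp_mem _ _) H.1 ?_,
    fun H => ⟨H.sp, fun q hq => H.eqv _ (hK.gen_mem hP (q := (_, _)) ⟨q, hq, rfl⟩)⟩⟩
  rintro _ ⟨q, hq, rfl⟩
  exact H.2 q hq

theorem sol_iff (h : Ok p n c) (hs : Gd p n l s) (hL : ∀ z ∈ L, U1 (sdD p n s).B z)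
    (hK : KL (lab n l) L t K) (hP : ∀ z w, K z w ↔ GenK (plD p n PL) z w)
    (hS : sp (frm p n) SL = SpK K) (x : Frm p n × (Frm p n →ₗ[ZMod p] Frm p n)) :
    x ∈ sp (dY p n) (solK c l s t' PL SL) ↔ Sys (lab n l) (sdD p n s).B L K t'
      (cmp (lab n l) t' ∘ₗ x.2) (cmp (lab n l) t' x.1) := by
  rw [mem_solK h hs, eqv_iff h hs hL hK hP hS]
  refine ⟨fun H => sys_of_gen hK hL hP H.1 (cmp_mem _ _) ?_,
    fun H => ⟨H.eqv, fun q hq => H.cob _ _ ((hP _ _).2 (genK_of_mem (q := (_, _)) ⟨q, hq, rfl⟩))⟩⟩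
  rintro _ ⟨q, hq, rfl⟩
  exact H.2 q hq

theorem cmp_comp {ℓ : Ix n → ℕ} {ψ : Frm p n →ₗ[ZMod p] Frm p n} (h : ∀ w, ψ w ∈ Wt ℓ t) :
    cmp ℓ t ∘ₗ ψ = ψ := LinearMap.ext fun w => mem_Wt_iff.1 (h w)

theorem tB_eq (h : Ok p n c) (b : Ix n) : tB c l b.val = key (lab n l) (bx b) := by
  have := h.tP l (bx b) 0
  rw [pm_zero] at this
  rw [tB, h.cz]
  exact this

theorem fre_test (h : Ok p n c) (hs : Gd p n l s) (hP : ∀ z w, K z w ↔ GenK (plD p n PL) z w)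
    (b : Ix n) (y : V) : ((b.val == cz c || !trivP c s b.val) &&
      (pkP c PL).any fun w => !isz c (u3 c) (psY c l (tB c l b.val) y w)) = true ↔
    (b = c0 n ∨ ¬ Triv (lab n l) (sdD p n s).B b) ∧
      ∃ w ∈ PK K, cmp (lab n l) (key (lab n l) (bx b)) ((dv (dY p n) y).2 w) ≠ 0 := by
  rw [tB_eq h, h.cz, ← pk_PK h hP]
  simp only [Bool.and_eq_true, Bool.or_eq_true, beq_iff_eq, Bool.not_eq_true', ← Bool.not_eq_true,
    h.trivP hs, List.any_eq_true, isz_iff h.hp h.d3]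
  refine and_congr (or_congr (Fin.ext_iff (b := c0 n)).symm Iff.rfl) ⟨fun ⟨w, hw, e⟩ => ⟨_, mem_sp hw, ?_⟩, ?_⟩
  · rwa [← dv_psY h]
  · rintro ⟨w, hw, e⟩
    by_contra! hc
    have : sp (frm p n) (pkP c PL) ≤ LinearMap.ker (cmp (lab n l) (key (lab n l) (bx b)) ∘ₗ
        (dv (dY p n) y).2) := sp_le.2 fun v hv => (dv_psY h y v).symm.trans (hc v hv)
    exact e (this hw)

theorem ed_eq (hQE5 : S_QE5 p n) {a : Fin 3 → Ix n} {ρ : Rz} {θ : V} (q : V) (h : Ok p n c)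
    (hn : 0 < n) (hs : Gd p n l s) (ha : ρ.2.1 = tr3 a)
    (hθ : fV p n θ ∈ Wt (lab n l) ((rzD p a ρ).t (lab n l))) (h4 : 4 ≤ ρ.1) :
    sp (tup p n (uK c s).length) (edP c l s [] [] ρ θ q) =
      Ed (lab n l) (sdD p n s) K (rzD p a ρ) (fV p n θ) (hV p n q) := by
  have hk : 2 ≤ (uK c s).length := by rw [length_uK]; omega
  obtain ⟨kind, a', k, cs, u, v, r⟩ := ρ
  simp only at ha h4
  subst ha
  have h5 := hQE5 c l s a (permP c k θ) r _ h hn hs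
    (by rw [h.permP]; exact perm_mem_Wt hs.str.lab (pm_bij k) hθ) hk
  have h6 := h.d4P hs hk a (permP c k θ) q
  rw [h.permP] at h5 h6
  simp only [edP, Ed, rzD, Bool.cond_eq_ite, beq_iff_eq, if_neg (show kind ≠ 2 by omega),
    if_neg (show kind ≠ 3 by omega)]
  split_ifs
  exacts [h6, h5.1, h5.2.1, h5.2.2]

theorem xq_eq (hQE5 : S_QE5 p n) {a : Fin 3 → Ix n} {ρ : Rz} {θ θ' : V} (q q' : V) (h : Ok p n c)
    (hn : 0 < n) (hs : Gd p n l s) (ha : ρ.2.1 = tr3 a) (hu : ρ.2.2.2.2.1.length = 2 * n + 1)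
    (hv : ρ.2.2.2.2.2.1.length = 2 * n + 1)
    (hθ : fV p n θ ∈ Wt (lab n l) ((rzD p a ρ).t (lab n l)))
    (hθ' : fV p n θ' ∈ Wt (lab n l) ((rzD p a ρ).t (lab n l))) (h4 : 4 ≤ ρ.1) :
    sp (mat p n) (xqP c l s [] [] [] ρ θ θ' q q') = Xq (lab n l) (sdD p n s) K K (rzD p a ρ)
      (fV p n θ) (fV p n θ') (hV p n q) (hV p n q') := by
  have e1 := fun q => ed_eq (K := K) hQE5 q h hn hs ha hθ h4
  have e2 := fun q => ed_eq (K := K) hQE5 q h hn hs ha hθ' h4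
  rw [xqP, h.htP, h.htP, e1, e1, e2, e2, hV_short hu, hV_short hv]
  rfl

theorem tR_eq (h : Ok p n c) {a : Fin 3 → Ix n} {ρ : Rz} (ha : ρ.2.1 = tr3 a) :
    tR c l ρ = (rzD p a ρ).t (lab n l) := by
  rw [tR, ha, h.tP]; rfl

theorem thR_eq (h : Ok p n c) {a : Fin 3 → Ix n} {ρ : Rz} (ha : ρ.2.1 = tr3 a) :
    fV p n (thR c l ρ) = cmp (lab n l) ((rzD p a ρ).t (lab n l)) (fV p n ρ.2.2.2.1) := by
  rw [thR, h.cmpP, tR_eq h ha]

theorem aq_eq (hQE5 : S_QE5 p n) {a : Fin 3 → Ix n} {ρ : Rz} (h : Ok p n c) (hn : 0 < n)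
    (hs : Gd p n l s) (ha : ρ.2.1 = tr3 a) (hu : ρ.2.2.2.2.1.length = 2 * n + 1)
    (hv : ρ.2.2.2.2.2.1.length = 2 * n + 1) (h4 : 4 ≤ ρ.1) :
    sp (mat p n) (aqR c l s ρ) = Aq (lab n l) (sdD p n s) K (rzD p a ρ) (fV p n (thR c l ρ)) := by
  have e : fV p n (thR c l ρ) ∈ Wt (lab n l) ((rzD p a ρ).t (lab n l)) :=
    thR_eq h ha ▸ cmp_mem _ _
  rw [aqR, aqP, xq_eq (K := K) hQE5 _ _ h hn hs ha hu hv e e h4, hV_short hu, hV_short hv]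
  rfl

theorem reps_spec (hQE5 : S_QE5 p n) (hN : S_NATR p n) {fq : List V → List V → Option V}
    {a : Fin 3 → Ix n} {ρ : Rz} (δ : V) (h : Ok p n c) (hn : 0 < n) (hs : Gd p n l s)
    (hF : Fq p n l fq) (ha : ρ.2.1 = tr3 a)
    (hρ : Shp (lab n l) (sdD p n s) ((rzD p a ρ).t (lab n l)) (rzD p a ρ))
    (hu : ρ.2.2.2.2.1.length = 2 * n + 1) (hv : ρ.2.2.2.2.2.1.length = 2 * n + 1) (h4 : 4 ≤ ρ.1) :
    (repsR fq c l s ρ δ).length ≤ p ^ cst (lab n l) (sdD p n s) (rzD p a ρ) ∧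
    (∀ y ∈ repsR fq c l s ρ δ, U1 (sdD p n s).B (mV p n y)) ∧
    ∀ z, U1 (sdD p n s).B z → pull1 z (fV p n (thR c l ρ) + cmp (lab n l) ((rzD p a ρ).t (lab n l))
      ((dv (dY p n) ρ.2.2.2.1).2 (fV p n δ))) - fV p n (thR c l ρ) ∈ Tr (lab n l) (sdD p n s).B →
      ∃ y ∈ repsR fq c l s ρ δ, st (mV p n y) * z ∈ sp (mat p n) (aqR c l s ρ) := by
  have e1 : fV p n (thR c l ρ) ∈ Wt (lab n l) ((rzD p a ρ).t (lab n l)) :=
    thR_eq h ha ▸ cmp_mem _ _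
  have e2 : fV p n (axpy c (u3 c) 1 (thR c l ρ) (psY c l (tR c l ρ) ρ.2.2.2.1 δ)) =
      fV p n (thR c l ρ) + cmp (lab n l) ((rzD p a ρ).t (lab n l))
        ((dv (dY p n) ρ.2.2.2.1).2 (fV p n δ)) := by
    rw [fV, dv_axpy h.hp h.d3, Nat.cast_one, one_smul, ← tR_eq h ha, ← dv_psY h]
  have e3 := e2.symm ▸ add_mem e1 (cmp_mem _ ((dv (dY p n) ρ.2.2.2.1).2 (fV p n δ)))
  have hA := aq_eq (K := K0 ⊥) hQE5 h hn hs ha hu hv h4
  have hX := fun q q' => xq_eq (K := K0 ⊥) hQE5 q q' h hn hs ha hu hv e1 e3 h4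
  have hc := fun q q' => (hX q q').symm ▸ hA.symm ▸ xq_cos hs.str.alg (K0 ⊥) (K0 ⊥) (rzD p a ρ)
    (fV p n (thR c l ρ)) _ (hV p n q) (hV p n q')
  have hG := fun q q' => hF _ _ (hA.symm ▸ aq_alg hs.str.alg _ _ _) (hc q q') fun x hx =>
    hs.str.alg.dg x (xq_le _ _ _ _ _ _ _ _ (hX q q' ▸ hx))
  refine ⟨(List.length_filterMap_le _ _).trans ?_, fun y hy => ?_, fun z hz e => ?_⟩
  · rw [candK, cst]
    by_cases h4 : ρ.1 = 4
    · have := length_qsP c l s (tr3 a)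
      rw [h.hp, show (tr3 a).getD 0 0 = (a 0).val from rfl, show (tr3 a).getD 1 0 = (a 1).val from rfl,
        show (tr3 a).getD 2 0 = (a 2).val from rfl, h.nbP, h.rv, QPopy.len_cso h hs] at this
      rw [if_pos (show (rzD p a ρ).kind = 4 from h4), h4, ha, two_mul, pow_add]
      simpa [List.length_flatMap, rzD] using Nat.mul_le_mul this this
    · rw [if_neg (show ¬ (rzD p a ρ).kind = 4 from h4), beq_false_of_ne h4]
      simp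
  · obtain ⟨q, -, hq⟩ := List.mem_filterMap.1 hy
    exact ((hG q.1 q.2).1 y hq).mono (hX q.1 q.2 ▸ xq_le _ _ _ _ _ _ _ _)
  · rw [← e2] at e
    obtain ⟨q, hq, q', hq', h0, hz'⟩ := hN _ _ _ (K0 ⊥) (K0 ⊥) _ _ _ z hs hρ h4 e1 e3 hz e
    obtain ⟨x, hx, rfl, rfl⟩ : ∃ x ∈ candK c l s ρ, hV p n x.1 = q ∧ hV p n x.2 = q' := by
      by_cases h4 : ρ.1 = 4
      · obtain ⟨x, hx, ex⟩ := ((h.qsP hs a).mem q).1 hq
        obtain ⟨x', hx', ex'⟩ := ((h.qsP hs a).mem q').1 hq'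
        refine ⟨(x, x'), ?_, ex, ex'⟩
        rw [candK, h4, ha]
        exact List.mem_flatMap.2 ⟨x, hx, List.mem_map_of_mem hx'⟩
      · refine ⟨([], []), ?_, dv_nil.trans (h0 h4).1.symm, dv_nil.trans (h0 h4).2.symm⟩
        rw [candK, beq_false_of_ne h4]
        exact List.mem_singleton_self _
    rw [← hX] at hz'
    obtain ⟨y, hy⟩ := Option.isSome_iff_exists.1 ((hG x.1 x.2).2 ⟨z, hz', hz.2⟩)
    exact ⟨y, List.mem_filterMap.2 ⟨x, hx, hy⟩, (hc x.1 x.2).quo _ ((hG x.1 x.2).1 y hy).1 _ hz'⟩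

omit [Fact p.Prime] in
theorem mem_recsR (h : Ok p n c) {ρ : Rz} : ρ ∈ recsR c l s PL SL ↔ ∃ a : Fin 3 → Ix n,
    ρ.2.1 = tr3 a ∧ (4 ≤ ρ.1 ∧ ρ.1 < 8) ∧ ρ.2.2.1 < 6 ∧ ρ.2.2.2.1 ∈ solK c l s (tR c l ρ) PL SL ∧
    ρ.2.2.2.2.1 ∈ blkP c l (a 0).val ∧ ρ.2.2.2.2.2.1 ∈ blkP c l (a 0).val ∧
    ρ.2.2.2.2.2.2 < 2 * (2 * n + 1) := by
  have e1 : ∀ k : ℕ, k ∈ [4, 5, 6, 7] ↔ 4 ≤ k ∧ k < 8 := fun k => by simp; omega
  have e2 : ∀ k : ℕ, k ∈ [0, 1, 2, 3, 4, 5] ↔ k < 6 := fun k => by simp; omega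
  simp only [recsR, List.mem_flatMap, List.mem_map, e1, e2, mem_ran, h.len3, h.lenh]
  constructor
  · rintro ⟨kind, h1, _, ⟨i, hi, rfl⟩, k, h2, cs, h3, u, h4, v, h5, r, h6, rfl⟩
    obtain ⟨a, rfl⟩ := exists_enc3 hi
    rw [QENGy.tr_eq h] at h3 h4 h5 ⊢
    exact ⟨a, rfl, h1, h2, h3, h4, h5, h6⟩
  · obtain ⟨kind, b, k, cs, u, v, r⟩ := ρ
    rintro ⟨a, rfl, h1, h2, h3, h4, h5, h6⟩
    exact ⟨kind, h1, tr3 a, ⟨_, enc3_lt a, QENGy.tr_eq h a⟩, k, h2, cs, h3, u, h4, v, h5, r, h6, rfl⟩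

theorem goodR_iff (hQPOT : S_QPOT p n) (h : Ok p n c) (hs : Gd p n l s) {a : Fin 3 → Ix n}
    {ρ : Rz} (ha : ρ.2.1 = tr3 a) (μ : V) : goodR c μ l s ρ = true ↔
      (ρ.1 = 4 → Triv (lab n l) (sdD p n s).B (a 0) ∨ ∀ j, ¬ Triv (lab n l) (sdD p n s).B (a j)) ∧
      cst (lab n l) (sdD p n s) (rzD p a ρ) + 1 ≤ 200 * (PhiS (muD μ) (lab n l) (sdD p n s).B -
        potP c μ l (aqR c l s ρ)) := by
  have e0 : (tr3 a).getD 0 0 = (a 0).val := rfl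
  have e1 : (tr3 a).getD 1 0 = (a 1).val := rfl
  have e2 : (tr3 a).getD 2 0 = (a 2).val := rfl
  rw [goodR, QENGy.cst_eq h hs ha, (hQPOT c μ l h).1 s hs, ha, e0, e1, e2]
  simp only [Bool.and_eq_true, Bool.or_eq_true, bne_iff_ne, Bool.not_eq_true',
    ← Bool.not_eq_true, h.trivP hs, Nat.ble_eq, Fin.forall_fin_succ]
  refine and_congr ?_ Iff.rfl
  simp only [IsEmpty.forall_iff, and_true]
  change _ ↔ _ → _ ∨ _ ∧ ¬ Triv _ _ (a 1) ∧ ¬ Triv _ _ (a 2)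
  tauto

theorem s_QRN (p n : ℕ) [Fact p.Prime] (hQPOT : S_QPOT p n) (hQE5 : S_QE5 p n) (hPQ : S_PQ p n)
    (hN : S_NATR p n) : S_QRN p n := by
  intro fq c l B a μ PL SL δ L K h hn hF hB hL hK hP hS
  have hs := h.sdB hB
  rw [engP, freP, ← sdB_B p n c l B]
  rw [← sdB_B p n c l B] at hB hL
  generalize sdB c l B = s at *
  have q1 := fun t' => eqv_iff (t' := t') h hs hL hK hP hS
  have q2 := fun t' => sol_iff (t' := t') h hs hL hK hP hS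
  have q6 := (hQPOT c μ l h).2
  refine ⟨fun hG hC hE e1 e2 => ?_, fun e he => ?_, fun A Y Y' e => ?_⟩
  · rcases hE a K hK with r | ⟨b, ψ, r⟩ | ⟨b, ψ, θ, -, r1, r2, r3⟩
    · exact r
    · exfalso
      obtain ⟨w, hw, e⟩ := r.pk
      rw [freQ, Option.map_eq_none_iff, List.find?_eq_none] at e1
      have : sp (dY p n) (eqvP c l s (key (lab n l) (bx b)) PL SL) ≤
          LinearMap.ker (evY (lab n l) (key (lab n l) (bx b)) w) := sp_le.2 fun y hy => by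
        by_contra hc
        exact e1 (b.val, y) (List.mem_flatMap.2 ⟨_, mem_ran.2 (b.2.trans_eq h.len1.symm),
          List.mem_map_of_mem (by rwa [tB_eq h])⟩) ((fre_test h hs hP b y).2 ⟨r.nt, w, hw, hc⟩)
      exact e ((mem_Wt_iff.1 (r.wt w)).symm.trans
        (this ((q1 _ (0, ψ)).2 ((cmp_comp r.wt).symm ▸ r.to_eqv))))
    · exfalso
      obtain ⟨y, hy, e⟩ : ∃ y ∈ solK c l s (key (lab n l) b) PL SL,
          cmp (lab n l) (key (lab n l) b) (fV p n y) ∉ Tr (lab n l) (sdD p n s).B := by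
        by_contra! hc
        have : sp (dY p n) (solK c l s (key (lab n l) b) PL SL) ≤ (Tr (lab n l) (sdD p n s).B).comap
            (cmp (lab n l) (key (lab n l) b) ∘ₗ LinearMap.fst _ _ _) := sp_le.2 hc
        have := this ((q2 _ (θ, ψ)).2 ((cmp_comp r2.eqv.wt).symm ▸ (mem_Wt_iff.1 r2.wt).symm ▸ r2))
        exact r3 (mem_Wt_iff.1 r2.wt ▸ this)
      obtain ⟨⟨kind, b', k, y', u, v, r⟩, rfl, g0, g1, g2⟩ :=
        hPQ (muD μ) _ _ b K _ (tv p y) hs hG hC r1 (cmp_mem _ _) e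
      obtain ⟨u, hu, rfl⟩ := ((h.blkP hB.lab (b' 0)).mem u).1 g1.u
      obtain ⟨v, hv, rfl⟩ := ((h.blkP hB.lab (b' 0)).mem v).1 g1.v
      have r4 : tR c l (kind, tr3 b', k, y, u, v, r) = key (lab n l) b := (tR_eq h rfl).trans g1.t
      have r6 := aq_eq (K := K) (ρ := (kind, tr3 b', k, y, u, v, r)) hQE5 h hn hs rfl
        (h.blkP_norm hu) (h.blkP_norm hv) g0
      rw [engQ, Option.map_eq_none_iff, List.find?_eq_none] at e2
      refine e2 (kind, tr3 b', k, y, u, v, r)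
        ((mem_recsR h).2 ⟨b', rfl, ⟨g0, g1.hi⟩, g1.k, r4 ▸ hy, hu, hv, g1.r⟩)
        ((goodR_iff hQPOT h hs rfl _).2 ⟨g1.pin, ?_⟩)
      rw [q6 _ hB.lab (r6 ▸ aq_alg hB.alg _ _ _), r6, thR, h.cmpP, r4]
      exact g2
  · obtain ⟨q, e1, rfl⟩ := Option.map_eq_some_iff.1 he
    obtain ⟨j, hj, hq⟩ := List.mem_flatMap.1 (List.mem_of_find?_eq_some e1)
    obtain ⟨y, hy, rfl⟩ := List.mem_map.1 hq
    obtain ⟨b, rfl⟩ : ∃ b : Ix n, b.val = j := ⟨⟨j, h.len1 ▸ mem_ran.1 hj⟩, rfl⟩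
    have e2 := List.find?_some e1
    obtain ⟨r1, r2⟩ := (fre_test h hs hP b y).1 e2
    refine ⟨b, rfl, ?_⟩
    rw [psiD, ← h.len3, NC.dv_mk h.hp (co3 h) (cmp (lab n l) (tB c l b.val) ∘ₗ (dv (dY p n) y).2)
      fun w => dv_psY h y w]
    rw [tB_eq h] at hy ⊢
    exact ((q1 _ _).1 (mem_sp hy)).fo hB hL r1 r2
  · obtain ⟨ρ, e1, e2⟩ := Option.map_eq_some_iff.1 e
    obtain ⟨b, r0, r1, r2, r7, r3, r4, r5⟩ := (mem_recsR h).1 (List.mem_of_find?_eq_some e1)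
    obtain ⟨g2, g4⟩ := (goodR_iff hQPOT h hs r0 _).1 (List.find?_some e1)
    have r6 := aq_eq (K := K) hQE5 h hn hs r0 (h.blkP_norm r3) (h.blkP_norm r4) r1.1
    have k := fun d => reps_spec hQE5 hN d h hn hs hF r0 ⟨le_trans (by norm_num) r1.1, r1.2, r2, r5,
      rfl, ((h.blkP hB.lab (b 0)).mem _).2 ⟨_, r3, rfl⟩,
      ((h.blkP hB.lab (b 0)).mem _).2 ⟨_, r4, rfl⟩, g2⟩ (h.blkP_norm r3) (h.blkP_norm r4) r1.1
    have r8 := (q2 _ _).1 (mem_sp r7)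
    rw [dY_fst, tR_eq h r0, ← thR_eq h r0] at r8
    obtain ⟨k1, k2, k3⟩ := k []
    obtain ⟨k4, k5, k6⟩ := k δ
    obtain ⟨rfl, rfl, rfl⟩ := e2
    have r9 := r6 ▸ aq_alg hB.alg K (rzD p b ρ) (fV p n (thR c l ρ))
    rw [q6 _ hB.lab r9] at g4
    have hp : 0 < p := (Fact.out : p.Prime).pos
    refine ⟨⟨r9, r6 ▸ xq_le _ _ _ _ _ _ _ _, List.forall_mem_map.2 k2, List.forall_mem_map.2 k5,
      fun x hx => ?_, fun x w hx e => ?_⟩, QENGy.count hp k1 g4, QENGy.count hp k4 g4⟩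
    · obtain ⟨y, hy, e⟩ := k3 x (hL _ (hK.mem _ _ hx).1)
        (r8.sol hK hL hx (by rw [fV, dv_nil, map_zero, add_zero]))
      exact ⟨_, List.mem_map_of_mem hy, e⟩
    · obtain ⟨y, hy, e⟩ := k6 x (hL _ (hK.mem _ _ hx).1) (r8.sol hK hL hx e)
      exact ⟨_, List.mem_map_of_mem hy, e⟩

end Pool.Agent.P.MP_f1a348_lc.UP.CU.RN
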