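import Pool.Agent.P.MP_f1a348_lc.RN.ProgF
import Pool.Agent.P.MP_f1a348_lc.RN.QEng
import Pool.Agent.P.MP_f1a348_lc.GF.Iface

/-!
Project RN: the specification of the engine, final form.
-/

namespace Pool.Agent.P.MP_f1a348_lc.UP.CU.RN

open Matrix Module Pool.Agent.P.MP_f1a348_lc.PG

def S_QENF (p n : ℕ) [Fact p.Prime] : Prop := ∀ (c : Cx) (l : V)
  (B : List V) (a : Fin 3 → Ix n) (μ : V) (PL : List (V × V)) (SL : List V) (δ : V)
  (L : Set (Mat p n)) (K : Rel p n), UP.Ok p n c → 0 < n →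
  Str (lab n l) (sp (mat p n) B) → (∀ z ∈ L, U1 (sp (mat p n) B) z) →
  KL (lab n l) L (key (lab n l) a) K → (∀ z w, K z w ↔ GenK (plD p n PL) z w) →
  sp (frm p n) SL = SpK K →
  (Big (lab n l) (sp (mat p n) B) 200 → Scl (muD μ) (lab n l) (sp (mat p n) B) →
    Eng (lab n l) (sp (mat p n) B) L → freP c l B PL SL = none →
    engF c l B μ PL SL δ = none → ∀ z w, K z w → K 1 w) ∧
  (∀ e, freP c l B PL SL = some e →
    ∃ b : Ix n, e.1 = b.val ∧ FO (lab n l) (sp (mat p n) B) L K b (psiD p n e)) ∧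
  ∀ A Y Y', engF c l B μ PL SL δ = some (A, Y, Y') →
    ER (lab n l) (sp (mat p n) B) K (fV p n δ) (sp (mat p n) A) (Y.map (mV p n))
      (Y'.map (mV p n)) ∧
    p * Y.length * p ^ (200 * PhA (muD μ) (lab n l) (sp (mat p n) A)) ≤
      p ^ (200 * PhiS (muD μ) (lab n l) (sp (mat p n) B)) ∧
    p * Y'.length * p ^ (200 * PhA (muD μ) (lab n l) (sp (mat p n) A)) ≤
      p ^ (200 * PhiS (muD μ) (lab n l) (sp (mat p n) B))

theorem s_QENF (p n : ℕ) [Fact p.Prime] (hQPOT : S_QPOT p n) (hQE5 : S_QE5 p n) (hPQ : S_PQ p n)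
    (hHINV : S_HINV p n) (hNAT3 : S_NAT3 p n) (hNA5 : S_NA5 p n) (hHI5 : S_HI5 p n)
    (hF : GF.S_QFIND p n) : S_QENF p n := fun c l B a μ PL SL δ L K h hn hB =>
  s_QRN p n hQPOT hQE5 hPQ (s_NATR p n hHINV hNAT3 hNA5 hHI5) _ c l B a μ PL SL δ L K h hn
    (fun _ X hA hc hX => ⟨(hF c l X h hB.lab hX).1, (hF c l X h hB.lab hX).2 _ hA hc⟩) hB

end Pool.Agent.P.MP_f1a348_lc.UP.CU.RN
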