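import Pool.Agent.P.MP_f1a348_lc.RN.Prog
import Pool.Agent.P.MP_f1a348_lc.UP.ETime

/-!
Project RN: the engine runs in polynomial time.
-/

namespace Pool.Agent.P.MP_f1a348_lc.UP.CU.RN

open Pool.Agent.Lib.Helper47 Pool.Agent.P.MP_f1a348_lc.PG

variable {α : Type} [Enc α] {c : α → Cx} {l μ y w δ : α → V} {s : α → Sd} {t b : α → ℕ}
  {PL : α → List (V × V)} {SL L B : α → List V} {ρ : α → Rz}
  {fq : α → List V → List V → Option V}

@[fun_prop] theorem pt_uY (h1 : PT c) : PT (fun e => uY (c e)) := by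
  unfold uY; fun_prop

@[fun_prop] theorem pt_pk1 (h1 : PT c) (h2 : PT PL) (h3 : PT L) :
    PT (fun e => pk1 (c e) (PL e) (L e)) := by
  unfold pk1; fun_prop

@[fun_prop] theorem pt_pkP (h1 : PT c) (h2 : PT PL) : PT (fun e => pkP (c e) (PL e)) :=
  PT.foldl_add (f := fun e S (_ : Unit) => pk1 (c e) (PL e) S) (by fun_prop) (by fun_prop)
    (by fun_prop) _ (ps_bb h1 (pt_u3 h1)) fun _ _ _ _ =>
      (size_basis _ _ _).trans (Nat.le_add_left _ _)

@[fun_prop] theorem pt_psY (h1 : PT c) (h2 : PT l) (h3 : PT t) (h4 : PT y) (h5 : PT w) :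
    PT (fun e => psY (c e) (l e) (t e) (y e) (w e)) := by
  unfold psY; fun_prop

@[fun_prop] theorem pt_eqT (h1 : PT c) (h2 : PT PL) : PT (fun e => eqT (c e) (PL e)) := by
  unfold eqT; fun_prop

@[fun_prop] theorem pt_eqvP (h1 : PT c) (h2 : PT l) (h3 : PT s) (h4 : PT t) (h5 : PT PL)
    (h6 : PT SL) : PT (fun e => eqvP (c e) (l e) (s e) (t e) (PL e) (SL e)) := by
  unfold eqvP; fun_prop

@[fun_prop] theorem pt_solK (h1 : PT c) (h2 : PT l) (h3 : PT s) (h4 : PT t) (h5 : PT PL)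
    (h6 : PT SL) : PT (fun e => solK (c e) (l e) (s e) (t e) (PL e) (SL e)) := by
  unfold solK; fun_prop

@[fun_prop] theorem pt_tB (h1 : PT c) (h2 : PT l) (h3 : PT b) :
    PT (fun e => tB (c e) (l e) (b e)) := by
  unfold tB; fun_prop

@[fun_prop] theorem pt_freQ (h1 : PT c) (h2 : PT l) (h3 : PT s) (h5 : PT PL) (h6 : PT SL) :
    PT (fun e => freQ (c e) (l e) (s e) (PL e) (SL e)) := by
  unfold freQ; fun_prop

@[fun_prop] theorem pt_freP (h1 : PT c) (h2 : PT l) (h3 : PT B) (h5 : PT PL) (h6 : PT SL) :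
    PT (fun e => freP (c e) (l e) (B e) (PL e) (SL e)) := by
  unfold freP; fun_prop

@[fun_prop] theorem pt_psiP {x : α → ℕ × V} (h1 : PT c) (h2 : PT x) (h3 : PT w) :
    PT (fun e => psiP (c e) (x e) (w e)) := by
  unfold psiP; fun_prop

@[fun_prop] theorem pt_tR (h1 : PT c) (h2 : PT l) (h3 : PT ρ) :
    PT (fun e => tR (c e) (l e) (ρ e)) := by
  unfold tR; fun_prop

@[fun_prop] theorem pt_thR (h1 : PT c) (h2 : PT l) (h3 : PT ρ) :
    PT (fun e => thR (c e) (l e) (ρ e)) := by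
  unfold thR; fun_prop

@[fun_prop] theorem pt_recsR (h1 : PT c) (h2 : PT l) (h3 : PT s) (h5 : PT PL) (h6 : PT SL) :
    PT (fun e => recsR (c e) (l e) (s e) (PL e) (SL e)) := by
  unfold recsR; fun_prop

@[fun_prop] theorem pt_aqR (h1 : PT c) (h2 : PT l) (h3 : PT s) (h4 : PT ρ) :
    PT (fun e => aqR (c e) (l e) (s e) (ρ e)) := by
  unfold aqR; fun_prop

@[fun_prop] theorem pt_goodR (h1 : PT c) (h0 : PT μ) (h2 : PT l) (h3 : PT s) (h4 : PT ρ) :
    PT (fun e => goodR (c e) (μ e) (l e) (s e) (ρ e)) := by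
  unfold goodR; fun_prop

@[fun_prop] theorem pt_repsR (h0 : PT (fun q : α × List V × List V => fq q.1 q.2.1 q.2.2))
    (h1 : PT c) (h2 : PT l) (h3 : PT s) (h4 : PT ρ) (h5 : PT δ) :
    PT (fun e => repsR (fq e) (c e) (l e) (s e) (ρ e) (δ e)) := by
  unfold repsR; fun_prop

@[fun_prop] theorem pt_engQ (h0 : PT (fun q : α × List V × List V => fq q.1 q.2.1 q.2.2))
    (h1 : PT c) (h2 : PT μ) (h3 : PT l) (h4 : PT s) (h5 : PT PL) (h6 : PT SL) (h7 : PT δ) :
    PT (fun e => engQ (fq e) (c e) (μ e) (l e) (s e) (PL e) (SL e) (δ e)) := by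
  unfold engQ; fun_prop

@[fun_prop] theorem pt_engP (h0 : PT (fun q : α × List V × List V => fq q.1 q.2.1 q.2.2))
    (h1 : PT c) (h2 : PT l) (h3 : PT B) (h4 : PT μ) (h5 : PT PL) (h6 : PT SL) (h7 : PT δ) :
    PT (fun e => engP (fq e) (c e) (l e) (B e) (μ e) (PL e) (SL e) (δ e)) := by
  unfold engP; fun_prop

/-! ### sizes of the results -/

theorem size_freP {c : Cx} {l : V} {B : List V} {PL : List (V × V)} {SL : List V} {e : ℕ × V}
    (h : freP c l B PL SL = some e) :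
    e.1 < (u1 c).length ∧ size e.2 ≤ bv c (mulU (u3 c) (u3 c)) := by
  obtain ⟨q, hq, rfl⟩ := Option.map_eq_some_iff.1 h
  obtain ⟨b, hb, hq⟩ := List.mem_flatMap.1 (List.mem_of_find?_eq_some hq)
  obtain ⟨y, -, rfl⟩ := List.mem_map.1 hq
  obtain ⟨x, hx, rfl⟩ := List.mem_map.1 hb
  exact ⟨(List.mem_zipIdx' hx).1, size_tab _ _ _⟩

theorem size_psiP (c : Cx) (e : ℕ × V) (w : V) : size (psiP c e w) ≤ bv c (u3 c) := size_tab _ _ _

theorem size_engP {fq : List V → List V → Option V} {c : Cx} {l : V} {B : List V} {μ : V}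
    {PL : List (V × V)} {SL : List V} {δ : V} {r : List V × List V × List V}
    (h : engP fq c l B μ PL SL δ = some r) : size r.1 ≤ bb c (u2 c) ∧
    (∀ y ∈ r.2.1, ∃ A X, fq A X = some y) ∧ ∀ y ∈ r.2.2, ∃ A X, fq A X = some y := by
  obtain ⟨ρ, -, rfl⟩ := Option.map_eq_some_iff.1 h
  refine ⟨size_htP _ _ _ _ _, fun y hy => ?_, fun y hy => ?_⟩ <;>
  · obtain ⟨v, -, e⟩ := List.mem_filterMap.1 hy
    exact ⟨_, _, e⟩

end Pool.Agent.P.MP_f1a348_lc.UP.CU.RN
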