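import Pool.Agent.P.MP_f1a348_lc.RN.Prog
import Pool.Agent.P.MP_f1a348_lc.GF.Prog

/-!
Project RN: the engine with the search for unitary elements of project GF.
-/

namespace Pool.Agent.P.MP_f1a348_lc.UP.CU.RN

open Pool.Agent.P.MP_f1a348_lc.PG

/-- the engine: a smaller algebra and two lists of representatives -/
def engF (c : Cx) (l : V) (B : List V) (μ : V) (PL : List (V × V)) (SL : List V) (δ : V) :
    Option (List V × List V × List V) :=
  engP (fun _ X => GF.findQ c l X) c l B μ PL SL δ

end Pool.Agent.P.MP_f1a348_lc.UP.CU.RN
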