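import Pool.Agent.P.MP_f1a348_lc.UP.EProg

/-!
Project RN: the program of the engine in every characteristic.
-/

namespace Pool.Agent.P.MP_f1a348_lc.UP.CU.RN

open Pool.Agent.P.MP_f1a348_lc.PG

/-! ### the linear system -/

/-- a form followed by the matrix of a linear map on forms -/
def uY (c : Cx) : U := u3 c ++ mulU (u3 c) (u3 c)
def pk1 (c : Cx) (PL : List (V × V)) (L : List V) : List V :=
  basis c (u3 c) (L ++ PL.flatMap fun q => L.map (pull1P c q.1))
/-- the closure of the values under the generators -/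
def pkP (c : Cx) (PL : List (V × V)) : List V :=
  (u3 c).foldl (fun L _ => pk1 c PL L) (basis c (u3 c) (PL.map fun q => q.2))
def psY (c : Cx) (l : V) (t : ℕ) (y w : V) : V :=
  cmpP c l t (NC.mv c (u3 c) (y.drop (u3 c).length) w)
def eqT (c : Cx) (PL : List (V × V)) : List V :=
  PL.flatMap fun q => (pkP c PL).map fun w => nv c (u2 c) q.1 ++ w
/-- equivariant maps that kill the span of `SL` modulo traces -/
def eqvP (c : Cx) (l : V) (s : Sd) (t : ℕ) (PL : List (V × V)) (SL : List V) : List V :=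
  preAll c (u3 c) (uY c)
    (preAll c (u3 c) (uY c) (units c (uY c)) SL (fun w y => psY c l t y w) (trL c s))
    (eqT c PL) (fun z y => vsub c (u3 c) (psY c l t y (pull1P c z (z.drop (u2 c).length)))
      (pull1P c z (psY c l t y (z.drop (u2 c).length)))) (trL c s)
/-- pairs of an equivariant map and a form whose coboundary is the image of the cocycle -/
def solK (c : Cx) (l : V) (s : Sd) (t : ℕ) (PL : List (V × V)) (SL : List V) : List V :=
  preAll c (u3 c) (uY c) (eqvP c l s t PL SL) (PL.map fun q => nv c (u2 c) q.1 ++ q.2)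
    (fun z y => vsub c (u3 c) (dif c (cmpP c l t y) (cmpP c l t y) z)
      (psY c l t y (z.drop (u2 c).length))) (trL c s)

/-! ### free steps -/

def tB (c : Cx) (l : V) (b : ℕ) : ℕ := tP c l [b, cz c, cz c] 0
def freQ (c : Cx) (l : V) (s : Sd) (PL : List (V × V)) (SL : List V) : Option (ℕ × V) :=
  (((ran (u1 c)).flatMap fun b => (eqvP c l s (tB c l b) PL SL).map fun y => (b, y)).find? fun q =>
    (q.1 == cz c || !trivP c s q.1) &&
      (pkP c PL).any fun w => !isz c (u3 c) (psY c l (tB c l q.1) q.2 w)).map fun q =>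
        (q.1, NC.mk c (u3 c) (psY c l (tB c l q.1) q.2))
/-- a block and the matrix of a map to its dual -/
def freP (c : Cx) (l : V) (B : List V) (PL : List (V × V)) (SL : List V) : Option (ℕ × V) :=
  freQ c l (sdB c l B) PL SL
/-- the map of a free step -/
def psiP (c : Cx) (e : ℕ × V) (w : V) : V := NC.mv c (u3 c) e.2 w

/-! ### recipes -/

def tR (c : Cx) (l : V) (ρ : Rz) : ℕ := tP c l ρ.2.1 ρ.2.2.1
def thR (c : Cx) (l : V) (ρ : Rz) : V := cmpP c l (tR c l ρ) ρ.2.2.2.1
def recsR (c : Cx) (l : V) (s : Sd) (PL : List (V × V)) (SL : List V) : List Rz :=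
  [4, 5, 6, 7].flatMap fun kind =>
    ((ran (u3 c)).map fun i => [co c 0 i, co c 1 i, co c 2 i]).flatMap fun a =>
      [0, 1, 2, 3, 4, 5].flatMap fun k => (solK c l s (tP c l a k) PL SL).flatMap fun y =>
        (blkP c l (a.getD 0 0)).flatMap fun u => (blkP c l (a.getD 0 0)).flatMap fun v =>
          (ran (uh c)).map fun r => (kind, a, k, y, u, v, r)
def aqR (c : Cx) (l : V) (s : Sd) (ρ : Rz) : List V := aqP c l s [] [] ρ (thR c l ρ)
def goodR (c : Cx) (μ l : V) (s : Sd) (ρ : Rz) : Bool :=
  (ρ.1 != 4 || trivP c s (ρ.2.1.getD 0 0) ||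
    (!trivP c s (ρ.2.1.getD 1 0) && !trivP c s (ρ.2.1.getD 2 0))) &&
  Nat.ble (cstP c l s ρ + 1) (200 * (phiSP c μ l s - potP c μ l (aqR c l s ρ)))
def repsR (fq : List V → List V → Option V) (c : Cx) (l : V) (s : Sd) (ρ : Rz) (δ : V) : List V :=
  (candK c l s ρ).filterMap fun q => fq (aqR c l s ρ) (xqP c l s [] [] [] ρ (thR c l ρ)
    (axpy c (u3 c) 1 (thR c l ρ) (psY c l (tR c l ρ) ρ.2.2.2.1 δ)) q.1 q.2)
def engQ (fq : List V → List V → Option V) (c : Cx) (μ l : V) (s : Sd) (PL : List (V × V))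
    (SL : List V) (δ : V) : Option (List V × List V × List V) :=
  ((recsR c l s PL SL).find? (goodR c μ l s)).map fun ρ =>
    (aqR c l s ρ, repsR fq c l s ρ [], repsR fq c l s ρ δ)
/-- the engine: a smaller algebra and two lists of representatives; `fq A X` finds a unitary
element of a coset `X` of the algebra `A` -/
def engP (fq : List V → List V → Option V) (c : Cx) (l : V) (B : List V) (μ : V)
    (PL : List (V × V)) (SL : List V) (δ : V) : Option (List V × List V × List V) :=
  engQ fq c μ l (sdB c l B) PL SL δ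

end Pool.Agent.P.MP_f1a348_lc.UP.CU.RN
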