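import Pool.Agent.P.MP_f1a348_lc.RN.Prog
import Pool.Agent.P.MP_f1a348_lc.RN.KDefs
import Pool.Agent.P.MP_f1a348_lc.UP.EIf
import Pool.Agent.P.MP_f1a348_lc.NC.Spec

/-!
Project RN: the linear system of the engine.
-/

namespace Pool.Agent.P.MP_f1a348_lc.UP.CU.RN

open Matrix Module Pool.Agent.P.MP_f1a348_lc.PG

/-- iterating an inflationary operator on subspaces reaches a fixed point -/
theorem chain_fix {k X : Type} [Field k] [AddCommGroup X] [Module k X] [Module.Finite k X]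
    (F : Submodule k X → Submodule k X) (hF : ∀ S, S ≤ F S) (S : Submodule k X) {N : ℕ}
    (hN : finrank k X ≤ N) : F (F^[N] S) = F^[N] S := by
  have key : ∀ j, F (F^[j] S) = F^[j] S ∨ j ≤ finrank k (F^[j] S) := fun j => by
    induction j with
    | zero => exact Or.inr (Nat.zero_le _)
    | succ j ih =>
      rw [Function.iterate_succ_apply']
      by_cases e : F (F^[j] S) = F^[j] S
      · exact Or.inl (by rw [e, e])
      · exact Or.inr ((ih.resolve_left e).trans_lt
          (Submodule.finrank_lt_finrank_of_lt ((hF _).lt_of_ne' e)))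
  refine (key N).elim id fun e => ?_
  have := Submodule.eq_top_of_finrank_eq (le_antisymm (Submodule.finrank_le _) (hN.trans e))
  exact le_antisymm (this ▸ le_top) (hF _)

/-- the decoder of a form followed by a linear map -/
noncomputable def dY (p n : ℕ) [Fact p.Prime] :
    Dcd p (Frm p n × (Frm p n →ₗ[ZMod p] Frm p n)) :=
  (frm p n).prod (NC.lin (frm p n) (top n) ∘ₗ shf p (top n))

/-- the linear map of a free step -/
noncomputable def psiD (p n : ℕ) [Fact p.Prime] (e : ℕ × V) : Frm p n →ₗ[ZMod p] Frm p n :=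
  dv (NC.lin (frm p n) (top n)) e.2

variable {p n : ℕ} [Fact p.Prime] {c : Cx} {l : V} {s : Sd} {t : ℕ} {PL : List (V × V)}
  {SL : List V}

theorem co_top : NC.Co (frm p n) (top n) := ⟨dec_frm, frm_surj⟩

theorem co3 (h : Ok p n c) : NC.Co (frm p n) (u3 c).length := h.len3 ▸ co_top

theorem dec_dY (h : Ok p n c) : Dec (dY p n) (uY c).length := by
  have := dec_join_x (u := u3 c) (w := mulU (u3 c) (u3 c)) h.d3
    (by rw [length_mulU]; exact (co3 h).lin.dec)
  rw [uY, dY, ← h.len3]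
  exact this

theorem surj_dY : Function.Surjective (dY p n) := fun y => by
  obtain ⟨v, hv⟩ := frm_surj y.1
  obtain ⟨w, hw⟩ := (co_top (p := p) (n := n)).lin.surj y.2
  refine ⟨fun i => if i < top n then v i else w (i - top n), Prod.ext ?_ ?_⟩
  · exact (dec_frm.congr fun i hi => if_pos hi).trans hv
  · rw [← hw]
    exact congrArg (NC.lin (frm p n) (top n)) (funext fun i => by simp [shf])

theorem dY_fst (y : V) : (dv (dY p n) y).1 = fV p n y := rfl

theorem dv_psiP (h : Ok p n c) (e : ℕ × V) (w : V) :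
    fV p n (psiP c e w) = psiD p n e (fV p n w) := by
  rw [psiP, fV, NC.dv_mv h.hp (co3 h), h.len3, psiD]

theorem dv_psY (h : Ok p n c) (y w : V) :
    fV p n (psY c l t y w) = cmp (lab n l) t ((dv (dY p n) y).2 (fV p n w)) := by
  rw [psY, h.cmpP, fV, NC.dv_mv h.hp (co3 h), h.len3, dY, dv_join_x]

/-- one step of the closure -/
noncomputable def pkF (p n : ℕ) (PL : List (V × V)) (S : Submodule (ZMod p) (Frm p n)) :
    Submodule (ZMod p) (Frm p n) := S ⊔ ⨆ q ∈ PL, S.map (pull1 (mV p n q.1))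

theorem sp_pk1 (h : Ok p n c) (L : List V) :
    sp (frm p n) (pk1 c PL L) = pkF p n PL (sp (frm p n) L) := by
  rw [pk1, (basis_bas h.hp h.d3 _).sp, sp_append, pkF]
  refine congrArg _ (le_antisymm (sp_le.2 fun x hx => ?_) (iSup₂_le fun q hq => ?_))
  · obtain ⟨q, hq, hx⟩ := List.mem_flatMap.1 hx
    obtain ⟨w, hw, rfl⟩ := List.mem_map.1 hx
    exact Submodule.mem_iSup_of_mem q (Submodule.mem_iSup_of_mem hq
      ⟨_, mem_sp hw, (h.pull1P _ _).symm⟩)
  · refine Submodule.map_le_iff_le_comap.2 (sp_le.2 fun w hw => ?_)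
    rw [Submodule.mem_comap, ← h.pull1P]
    exact mem_sp (List.mem_flatMap.2 ⟨q, hq, List.mem_map_of_mem hw⟩)

theorem sp_pkP (h : Ok p n c) : sp (frm p n) (pkP c PL) =
    (pkF p n PL)^[top n] (sp (frm p n) (PL.map fun q => q.2)) := by
  have key : ∀ (u : U) (L : List V), sp (frm p n) (u.foldl (fun L _ => pk1 c PL L) L) =
      (pkF p n PL)^[u.length] (sp (frm p n) L) := fun u => by
    induction u with
    | nil => exact fun _ => rfl
    | cons _ u ih =>
      intro L
      rw [List.foldl_cons, ih, sp_pk1 h, List.length_cons, Function.iterate_succ_apply]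
  rw [pkP, key, (basis_bas h.hp h.d3 _).sp, h.len3]

/-- the closure is the span of all values -/
theorem pk_eq (h : Ok p n c) : sp (frm p n) (pkP c PL) =
    Submodule.span (ZMod p) {w | ∃ z, GenK (plD p n PL) z w} := by
  have hF : ∀ S, S ≤ pkF p n PL S := fun S => le_sup_left
  obtain ⟨i1, i2⟩ := (co_top (p := p) (n := n)).rank
  refine le_antisymm ?_ (Submodule.span_le.2 ?_)
  · rw [sp_pkP h]
    refine Function.Iterate.rec (fun S => S ≤ _) (sp_le.2 fun x hx => ?_) (fun S hS => ?_) _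
    · obtain ⟨q, hq, rfl⟩ := List.mem_map.1 hx
      exact Submodule.subset_span ⟨_, genK_of_mem (q := (_, _)) ⟨q, hq, rfl⟩⟩
    · refine sup_le hS (iSup₂_le fun q hq => (Submodule.map_mono hS).trans ?_)
      rw [Submodule.map_span, Submodule.span_le]
      rintro _ ⟨w, ⟨z, hz⟩, rfl⟩
      have e : (mV p n q.1, fV p n q.2) ∈ plD p n PL := ⟨q, hq, rfl⟩
      have := Submodule.sub_mem _ (Submodule.subset_span (R := ZMod p)
        (s := {w | ∃ z, GenK (plD p n PL) z w}) ⟨_, hz.mul e⟩)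
        (Submodule.subset_span ⟨_, genK_of_mem e⟩)
      rwa [add_sub_cancel_right] at this
  · have h1 := chain_fix _ hF (sp (frm p n) (PL.map fun q => q.2)) i2.le
    have h2 : sp (frm p n) (PL.map fun q => q.2) ≤ sp (frm p n) (pkP c PL) := by
      rw [sp_pkP h]
      exact Function.Iterate.rec (fun S => _ ≤ S) le_rfl (fun S hS => hS.trans (hF S)) _
    rw [← sp_pkP h] at h1
    rintro w ⟨z, hz⟩
    induction hz with
    | one => exact zero_mem _
    | mul _ b ih =>
      obtain ⟨q, hq, e⟩ := b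
      obtain ⟨rfl, rfl⟩ := Prod.mk.inj e
      refine add_mem (h1.le (Submodule.mem_sup_right ?_)) (h2 (mem_sp (List.mem_map_of_mem hq)))
      exact Submodule.mem_iSup_of_mem q (Submodule.mem_iSup_of_mem hq ⟨_, ih, rfl⟩)

/-- evaluation of the second component -/
noncomputable def evY (ℓ : Ix n → ℕ) (t : ℕ) (w : Frm p n) :
    (Frm p n × (Frm p n →ₗ[ZMod p] Frm p n)) →ₗ[ZMod p] Frm p n :=
  cmp ℓ t ∘ₗ LinearMap.applyₗ w ∘ₗ LinearMap.snd _ _ _

theorem evY_apply (ℓ : Ix n → ℕ) (t : ℕ) (w : Frm p n)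
    (x : Frm p n × (Frm p n →ₗ[ZMod p] Frm p n)) : evY ℓ t w x = cmp ℓ t (x.2 w) := rfl

omit [Fact p.Prime] in
theorem mV_join (h : Ok p n c) (z w : V) : mV p n (nv c (u2 c) z ++ w) = mV p n z := by
  rw [mV, dv_append_left h.d2 _ (length_nv ..).ge, dv_nv h.hp h.d2]

theorem mem_eqvP (h : Ok p n c) (hs : Gd p n l s) (x : Frm p n × (Frm p n →ₗ[ZMod p] Frm p n)) :
    x ∈ sp (dY p n) (eqvP c l s t PL SL) ↔
      (∀ w ∈ sp (frm p n) SL, cmp (lab n l) t (x.2 w) ∈ Tr (lab n l) (sdD p n s).B) ∧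
      ∀ q ∈ PL, ∀ w ∈ sp (frm p n) (pkP c PL), cmp (lab n l) t (x.2 (pull1 (mV p n q.1) w)) -
        pull1 (mV p n q.1) (cmp (lab n l) t (x.2 w)) ∈ Tr (lab n l) (sdD p n s).B := by
  rw [eqvP, mem_preAll h.hp h.d3 (dec_dY h) _ (fun z => evY (lab n l) t (pull1 (mV p n z)
      (fV p n (z.drop (u2 c).length))) - pull1 (mV p n z) ∘ₗ evY (lab n l) t
        (fV p n (z.drop (u2 c).length))) (fun z _ y => by
      rw [dv_vsub h.hp h.d3, ← fV, ← fV, h.pull1P, dv_psY h, dv_psY h, h.pull1P]; rfl),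
    mem_preAll h.hp h.d3 (dec_dY h) _ (fun w => evY (lab n l) t (fV p n w))
      (fun w _ y => dv_psY h y w), sp_units_top h.hp (dec_dY h) surj_dY, h.trL hs]
  refine and_congr ((and_iff_right trivial).trans ⟨fun H w hw => ?_, fun H w hw => H _ (mem_sp hw)⟩)
    ⟨fun H q hq w hw => ?_, fun H z hz => ?_⟩
  · have : sp (frm p n) SL ≤ (Tr (lab n l) (sdD p n s).B).comap (cmp (lab n l) t ∘ₗ x.2) :=
      sp_le.2 H
    exact this hw
  · have : sp (frm p n) (pkP c PL) ≤ (Tr (lab n l) (sdD p n s).B).comap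
        (cmp (lab n l) t ∘ₗ x.2 ∘ₗ pull1 (mV p n q.1) -
          pull1 (mV p n q.1) ∘ₗ cmp (lab n l) t ∘ₗ x.2) := sp_le.2 fun v hv => by
      have := H _ (List.mem_flatMap.2 ⟨q, hq, List.mem_map_of_mem hv⟩)
      rw [mV_join h, List.drop_left' (length_nv ..)] at this
      exact this
    exact this hw
  · obtain ⟨q, hq, hz⟩ := List.mem_flatMap.1 hz
    obtain ⟨w, hw, rfl⟩ := List.mem_map.1 hz
    rw [mV_join h, List.drop_left' (length_nv ..)]
    exact H q hq _ (mem_sp hw)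

theorem mem_solK (h : Ok p n c) (hs : Gd p n l s) (x : Frm p n × (Frm p n →ₗ[ZMod p] Frm p n)) :
    x ∈ sp (dY p n) (solK c l s t PL SL) ↔ x ∈ sp (dY p n) (eqvP c l s t PL SL) ∧
      ∀ q ∈ PL, pull1 (mV p n q.1) (cmp (lab n l) t x.1) - cmp (lab n l) t x.1 -
        cmp (lab n l) t (x.2 (fV p n q.2)) ∈ Tr (lab n l) (sdD p n s).B := by
  rw [solK, mem_preAll h.hp h.d3 (dec_dY h) _ (fun z => pull1 (mV p n z) ∘ₗ cmp (lab n l) t ∘ₗ
      LinearMap.fst _ _ _ - cmp (lab n l) t ∘ₗ LinearMap.fst _ _ _ - evY (lab n l) t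
        (fV p n (z.drop (u2 c).length))) (fun z _ y => by
      rw [dv_vsub h.hp h.d3, ← fV, ← fV, h.dif, dv_psY h, h.cmpP]; rfl), h.trL hs,
    List.forall_mem_map]
  refine and_congr_right fun _ => forall₂_congr fun q _ => ?_
  rw [mV_join h, List.drop_left' (length_nv ..)]
  rfl

end Pool.Agent.P.MP_f1a348_lc.UP.CU.RN
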