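import Pool.Agent.P.MP_f1a348_lc.RN.ProgF
import Pool.Agent.P.MP_f1a348_lc.RN.Time
import Pool.Agent.P.MP_f1a348_lc.GF.Time

/-!
Project RN: the engine with the search of project GF runs in polynomial time.
-/

namespace Pool.Agent.P.MP_f1a348_lc.UP.CU.RN

open Pool.Agent.Lib.Helper47 Pool.Agent.P.MP_f1a348_lc.PG

@[fun_prop] theorem pt_engF {α : Type} [Enc α] {c : α → Cx} {l μ δ : α → V}
    {PL : α → List (V × V)} {SL B : α → List V} (h1 : PT c) (h2 : PT l) (h3 : PT B) (h4 : PT μ)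
    (h5 : PT PL) (h6 : PT SL) (h7 : PT δ) :
    PT (fun e => engF (c e) (l e) (B e) (μ e) (PL e) (SL e) (δ e)) :=
  pt_engP (fq := fun e _ X => GF.findQ (c e) (l e) X) (by fun_prop) h1 h2 h3 h4 h5 h6 h7

theorem size_engF {c : Cx} {l : V} {B : List V} {μ : V} {PL : List (V × V)} {SL : List V} {δ : V}
    {r : List V × List V × List V} (h : engF c l B μ PL SL δ = some r) : size r.1 ≤ bb c (u2 c) ∧
    (∀ y ∈ r.2.1, size y ≤ bv c (u2 c)) ∧ ∀ y ∈ r.2.2, size y ≤ bv c (u2 c) :=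
  ⟨(size_engP h).1, fun y hy => ((size_engP h).2.1 y hy).elim fun _ e => e.elim fun _ e =>
    GF.size_findQ e, fun y hy => ((size_engP h).2.2 y hy).elim fun _ e => e.elim fun _ e =>
    GF.size_findQ e⟩

end Pool.Agent.P.MP_f1a348_lc.UP.CU.RN
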